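import Mathlib

/-!
A transitive `p`-group of finitary permutations is totally imprimitive: every finite set of
points lies in a finite block.
-/

set_option autoImplicit false
set_option linter.style.haveILetI false

namespace Pool.Agent.R673.FS

open MulAction Pointwise
open scoped commutatorElement

/-- In a finite `p`-group the commutators lie in every maximal subgroup. -/
lemma comm_mem_coatom {H : Type*} [Group H] [Finite H] {p : ℕ} [Fact p.Prime] (hp : IsPGroup p H)
    {L : Subgroup H} (hL : IsCoatom L) (a b : H) : ⁅a, b⁆ ∈ L := by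
  haveI hnil : Group.IsNilpotent H := hp.isNilpotent
  have hnc : NormalizerCondition H := Group.normalizerCondition_of_isNilpotent
  haveI hn : L.Normal := Subgroup.NormalizerCondition.normal_of_coatom L hnc hL
  -- the quotient
  have hnt : Nontrivial (H ⧸ L) := by
    rw [← not_subsingleton_iff_nontrivial]
    intro h
    exact hL.1 (QuotientGroup.subsingleton_iff.1 h)
  have hpQ : IsPGroup p (H ⧸ L) := hp.to_quotient L
  haveI := hpQ.center_nontrivial
  -- the preimage of the centre is everything
  have hc : (Subgroup.center (H ⧸ L)).comap (QuotientGroup.mk' L) = ⊤ := by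
    apply hL.2
    refine lt_of_le_of_ne ?_ ?_
    · intro x hx
      rw [Subgroup.mem_comap]
      have : QuotientGroup.mk' L x = 1 := (QuotientGroup.eq_one_iff x).2 hx
      rw [this]; exact Subgroup.one_mem _
    · intro h
      obtain ⟨z, hz⟩ := exists_ne (1 : Subgroup.center (H ⧸ L))
      obtain ⟨x, hx⟩ := QuotientGroup.mk'_surjective L (z : H ⧸ L)
      have hx2 : x ∈ L := by
        rw [h, Subgroup.mem_comap, hx]; exact z.2
      apply hz
      apply Subtype.ext
      rw [← hx]
      exact (QuotientGroup.eq_one_iff x).2 hx2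
  have ha : QuotientGroup.mk' L a ∈ Subgroup.center (H ⧸ L) := by
    have : a ∈ (Subgroup.center (H ⧸ L)).comap (QuotientGroup.mk' L) := by rw [hc]; trivial
    exact this
  rw [← QuotientGroup.eq_one_iff, ← QuotientGroup.mk'_apply, map_commutatorElement,
    commutatorElement_eq_one_iff_mul_comm]
  exact (Subgroup.mem_center_iff.1 ha _).symm

/-- In a `p`-group all of whose finitely generated subgroups are finite, every commutator lies in
every maximal subgroup. -/
lemma comm_mem_of_coatom {S : Type*} [Group S] {p : ℕ} [Fact p.Prime] (hp : IsPGroup p S)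
    (hlf : ∀ t : Set S, t.Finite → Finite (Subgroup.closure t)) {M : Subgroup S}
    (hM : IsCoatom M) (a b : S) : ⁅a, b⁆ ∈ M := by
  by_contra hc
  set c := ⁅a, b⁆ with hcdef
  have htop : Subgroup.closure ((M : Set S) ∪ {c}) = ⊤ := by
    apply hM.2
    refine lt_of_le_of_ne ?_ ?_
    · intro x hx
      exact Subgroup.subset_closure (Or.inl hx)
    · intro h
      apply hc
      rw [h]
      exact Subgroup.subset_closure (Or.inr rfl)
  have key : ∀ x ∈ Subgroup.closure ((M : Set S) ∪ {c}), ∃ t : Set S, t.Finite ∧ t ⊆ M ∧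
      x ∈ Subgroup.closure (t ∪ {c}) := by
    intro x hx
    induction hx using Subgroup.closure_induction with
    | mem x hx =>
      rcases hx with hx | hx
      · exact ⟨{x}, Set.finite_singleton x, by simpa using hx,
          Subgroup.subset_closure (Or.inl rfl)⟩
      · exact ⟨∅, Set.finite_empty, Set.empty_subset _, Subgroup.subset_closure (Or.inr hx)⟩
    | one => exact ⟨∅, Set.finite_empty, Set.empty_subset _, Subgroup.one_mem _⟩
    | mul x y _ _ hx hy =>
      obtain ⟨t, h1, h2, h3⟩ := hx
      obtain ⟨u, k1, k2, k3⟩ := hy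
      refine ⟨t ∪ u, h1.union k1, Set.union_subset h2 k2, Subgroup.mul_mem _ ?_ ?_⟩
      · exact Subgroup.closure_mono (by intro z hz; rcases hz with hz | hz; exacts [Or.inl (Or.inl hz), Or.inr hz]) h3
      · exact Subgroup.closure_mono (by intro z hz; rcases hz with hz | hz; exacts [Or.inl (Or.inr hz), Or.inr hz]) k3
    | inv x _ hx =>
      obtain ⟨t, h1, h2, h3⟩ := hx
      exact ⟨t, h1, h2, Subgroup.inv_mem _ h3⟩
  obtain ⟨t, h1, h2, h3⟩ := key a (by rw [htop]; trivial)
  obtain ⟨u, k1, k2, k3⟩ := key b (by rw [htop]; trivial)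
  set T : Set S := (t ∪ u) ∪ {c} with hT
  set H := Subgroup.closure T with hH
  haveI hfH : Finite H := hlf _ ((h1.union k1).union (Set.finite_singleton c))
  have haH : a ∈ H := Subgroup.closure_mono (by intro z hz; rcases hz with hz | hz; exacts [Or.inl (Or.inl hz), Or.inr hz]) h3
  have hbH : b ∈ H := Subgroup.closure_mono (by intro z hz; rcases hz with hz | hz; exacts [Or.inl (Or.inr hz), Or.inr hz]) k3
  have hcH : c ∈ H := Subgroup.subset_closure (Or.inr rfl)
  -- a maximal subgroup of `H` containing `t ∪ u` but not `c`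
  let Z : Set (Subgroup H) := {L | (∀ x : H, (x : S) ∈ t ∪ u → x ∈ L) ∧ (⟨c, hcH⟩ : H) ∉ L}
  have hZne : Z.Nonempty := by
    refine ⟨M.subgroupOf H, ?_, ?_⟩
    · intro x hx
      rw [Subgroup.mem_subgroupOf]
      exact Set.union_subset h2 k2 hx
    · rw [Subgroup.mem_subgroupOf]; exact hc
  obtain ⟨L, hLm⟩ := (Set.toFinite Z).exists_maximal hZne
  have hLZ : L ∈ Z := hLm.prop
  have hLco : IsCoatom L := by
    constructor
    · intro h
      apply hLZ.2
      rw [h]; trivial
    · intro K hK
      have hcK : (⟨c, hcH⟩ : H) ∈ K := by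
        by_contra hcK
        have hKZ : K ∈ Z := ⟨fun x hx => hK.le (hLZ.1 x hx), hcK⟩
        exact absurd (hLm.le_of_ge hKZ hK.le) (not_le_of_gt hK)
      rw [eq_top_iff]
      have : H ≤ K.map H.subtype := by
        refine (Subgroup.closure_le _).2 ?_
        intro x hx
        have hxH : x ∈ H := Subgroup.subset_closure hx
        refine ⟨⟨x, hxH⟩, ?_, rfl⟩
        rcases hx with hx | hx
        · exact hK.le (hLZ.1 ⟨x, hxH⟩ hx)
        · have hx' : x = c := hx
          subst hx'
          exact hcK
      intro x _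
      obtain ⟨y, hy, hyx⟩ := this x.2
      have : y = x := Subtype.ext hyx
      rw [← this]; exact hy
  have hpH : IsPGroup p H := hp.to_subgroup H
  have := comm_mem_coatom hpH hLco ⟨a, haH⟩ ⟨b, hbH⟩
  apply hLZ.2
  exact this

section
variable {S Ω : Type*} [Group S] [MulAction S Ω]

/-- The pointwise stabilizer of the complement of a finite set is finite. -/
lemma finite_fixing [FaithfulSMul S Ω] {D : Set Ω} (hD : D.Finite) :
    Finite (fixingSubgroup S Dᶜ) := by
  haveI := hD.to_subtype
  have hmap : ∀ (g : fixingSubgroup S Dᶜ) (x : Ω), x ∈ D → (g : S) • x ∈ D := by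
    intro g x hx
    by_contra h
    have h1 : (g : S) • ((g : S) • x) = (g : S) • x := (mem_fixingSubgroup_iff S).1 g.2 _ h
    have : (g : S) • x = x := smul_left_cancel _ h1
    rw [this] at h
    exact h hx
  refine Finite.of_injective (fun g : fixingSubgroup S Dᶜ =>
    (fun x : D => (⟨(g : S) • (x : Ω), hmap g x x.2⟩ : D))) ?_
  intro g h hgh
  apply Subtype.ext
  apply FaithfulSMul.eq_of_smul_eq_smul (α := Ω)
  intro x
  by_cases hx : x ∈ D
  · exact congrArg Subtype.val (congrFun hgh ⟨x, hx⟩)
  · rw [(mem_fixingSubgroup_iff S).1 g.2 x hx, (mem_fixingSubgroup_iff S).1 h.2 x hx]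

lemma finite_closure [FaithfulSMul S Ω] (hfin : ∀ g : S, {x : Ω | g • x ≠ x}.Finite) (t : Set S)
    (ht : t.Finite) : Finite (Subgroup.closure t) := by
  set D : Set Ω := ⋃ g ∈ t, {x : Ω | g • x ≠ x} with hD
  have hDf : D.Finite := ht.biUnion fun g _ => hfin g
  haveI := finite_fixing (S := S) hDf
  have hle : Subgroup.closure t ≤ fixingSubgroup S Dᶜ := by
    rw [Subgroup.closure_le]
    intro g hg
    rw [SetLike.mem_coe, mem_fixingSubgroup_iff]
    intro x hx
    by_contra h
    exact hx (Set.mem_biUnion hg h)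
  exact Finite.of_injective _ (Subgroup.inclusion_injective hle)

/-- Proper blocks of a transitive finitary group are finite. -/
lemma finite_block [IsPretransitive S Ω] (hfin : ∀ g : S, {x : Ω | g • x ≠ x}.Finite)
    {B : Set Ω} (hB : IsBlock S B) (hne : B ≠ Set.univ) : B.Finite := by
  rcases B.eq_empty_or_nonempty with rfl | ⟨x, hx⟩
  · exact Set.finite_empty
  obtain ⟨y, hy⟩ := (Set.ne_univ_iff_exists_notMem B).1 hne
  obtain ⟨g, hg⟩ := exists_smul_eq S x y
  have hgB : g • B ≠ B := by
    intro h
    apply hy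
    rw [← h, ← hg]
    exact Set.smul_mem_smul_set hx
  have hdisj := hB.smul_eq_or_disjoint g
  rcases hdisj with h | h
  · exact absurd h hgB
  · refine (hfin g).subset ?_
    intro z hz hgz
    exact Set.disjoint_left.1 h (by rw [← hgz]; exact Set.smul_mem_smul_set hz) hz

/-- A transitive `p`-group of finitary permutations is totally imprimitive. -/
theorem exists_block [FaithfulSMul S Ω] [IsPretransitive S Ω] {p : ℕ} [Fact p.Prime]
    (hp : IsPGroup p S) (hfin : ∀ g : S, {x : Ω | g • x ≠ x}.Finite) (F : Set Ω) (hF : F.Finite) :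
    ∃ C : Set Ω, C.Finite ∧ F ⊆ C ∧ IsBlock S C := by
  by_cases hΩ : Finite Ω
  · exact ⟨Set.univ, Set.toFinite _, Set.subset_univ _, IsBlock.univ⟩
  rw [not_finite_iff_infinite] at hΩ
  obtain ⟨α⟩ : Nonempty Ω := inferInstance
  choose s hs using fun β : Ω => exists_smul_eq S α β
  set U : Set S := s '' F with hU
  have hUf : U.Finite := hF.image _
  set T := Subgroup.closure ((stabilizer S α : Set S) ∪ U) with hT
  have hstT : stabilizer S α ≤ T := fun x hx => Subgroup.subset_closure (Or.inl hx)
  have hTne : T ≠ ⊤ := by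
    intro hTtop
    -- a maximal subgroup containing the stabilizer
    obtain ⟨M, hM1, hM2⟩ := zorn_le_nonempty₀ {K : Subgroup S | K ≠ ⊤ ∧ stabilizer S α ≤ K} (by
      intro c hc hchain y hy
      refine ⟨sSup c, ⟨?_, ?_⟩, fun z hz => le_sSup hz⟩
      · intro htop
        have hdir : DirectedOn (· ≤ ·) c := hchain.directedOn
        -- all elements of `U` lie in one member
        have hmem : ∀ x : S, ∃ K ∈ c, x ∈ K := by
          intro x
          have hx : x ∈ sSup c := by rw [htop]; trivial
          exact (Subgroup.mem_sSup_of_directedOn ⟨y, hy⟩ hdir).1 hx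
        have hfinsub : ∀ V : Set S, V.Finite → ∃ K ∈ c, V ⊆ K := by
          intro V hV
          induction V, hV using Set.Finite.induction_on with
          | empty => exact ⟨y, hy, Set.empty_subset _⟩
          | @insert a s _ _ ih =>
            obtain ⟨K, hK, hK'⟩ := ih
            obtain ⟨L, hL, hL'⟩ := hmem a
            obtain ⟨P, hP, h1, h2⟩ := hdir K hK L hL
            exact ⟨P, hP, Set.insert_subset (h2 hL') (hK'.trans h1)⟩
        obtain ⟨K, hK, hK'⟩ := hfinsub U hUf
        apply (hc hK).1
        rw [eq_top_iff, ← hTtop, hT, Subgroup.closure_le]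
        exact Set.union_subset (hc hK).2 hK'
      · exact le_trans (hc hy).2 (le_sSup hy)) (stabilizer S α) ⟨by
        intro htop
        -- then `α` is fixed by everything, contradiction with infinitely many points
        obtain ⟨β, hβ⟩ := exists_ne α
        obtain ⟨g, hg⟩ := exists_smul_eq S α β
        have : g ∈ stabilizer S α := by rw [htop]; trivial
        exact hβ (by rw [← hg]; exact this), le_rfl⟩
    have hMco : IsCoatom M := by
      refine ⟨hM2.prop.1, ?_⟩
      intro K hK
      by_contra hKne
      exact absurd (hM2.le_of_ge (y := K) ⟨hKne, hM2.prop.2.trans hK.le⟩ hK.le) (not_le_of_gt hK)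
    have hcomm := fun a b => comm_mem_of_coatom hp (finite_closure hfin) hMco a b
    haveI hMn : M.Normal := by
      constructor
      intro n hn g
      have : g * n * g⁻¹ = ⁅g, n⁆ * n := by rw [commutatorElement_def]; group
      rw [this]
      exact M.mul_mem (hcomm g n) hn
    -- the orbit of `α` under `M` is a proper block, hence finite
    have hb : IsBlock S (orbit M α) := IsBlock.of_orbit hM2.prop.2
    have hbne : orbit M α ≠ Set.univ := by
      intro h
      apply hM2.prop.1
      rw [eq_top_iff]
      intro g _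
      have : g • α ∈ orbit M α := by rw [h]; trivial
      obtain ⟨m, hm⟩ := this
      have hm' : (m : S) • α = g • α := hm
      have h1 : (m : S)⁻¹ * g ∈ stabilizer S α := by
        rw [mem_stabilizer_iff, mul_smul, ← hm', inv_smul_smul]
      have h2 := M.mul_mem m.2 (hM2.prop.2 h1)
      simpa using h2
    have hbf : (orbit M α).Finite := finite_block hfin hb hbne
    -- `M` has finite index: the quotient is a simple `p`-group
    -- choose `g ∉ M`; some power of it is in `M`; `M ⊔ ⟨g⟩ = ⊤`
    obtain ⟨g, hg⟩ : ∃ g, g ∉ M := by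
      by_contra h
      push Not at h
      exact hM2.prop.1 (eq_top_iff.2 fun x _ => h x)
    obtain ⟨k, hk⟩ := hp g
    have hcover : ∀ x : S, ∃ i < p ^ k, ∃ m ∈ M, x = g ^ i * m := by
      have hsup : M ⊔ Subgroup.zpowers g = ⊤ := by
        apply hMco.2
        refine lt_of_le_of_ne le_sup_left ?_
        intro h
        apply hg
        rw [h]
        exact (le_sup_right : Subgroup.zpowers g ≤ _) (Subgroup.mem_zpowers g)
      intro x
      have hx : x ∈ Subgroup.zpowers g ⊔ M := by rw [sup_comm, hsup]; trivial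
      rw [Subgroup.mem_sup_of_normal_right] at hx
      obtain ⟨y, hy, m, hm, rfl⟩ := hx
      obtain ⟨n, rfl⟩ := Subgroup.mem_zpowers_iff.1 hy
      have hpos : 0 < p ^ k := pow_pos (Fact.out (p := p.Prime)).pos k
      refine ⟨(n % (p ^ k : ℕ)).toNat, ?_, m, hm, ?_⟩
      · have h1 : 0 ≤ n % (p ^ k : ℕ) := Int.emod_nonneg _ (by exact_mod_cast hpos.ne')
        have h2 : n % (p ^ k : ℕ) < (p ^ k : ℕ) := Int.emod_lt_of_pos _ (by exact_mod_cast hpos)
        omega
      · congr 1
        have h1 : 0 ≤ n % (p ^ k : ℕ) := Int.emod_nonneg _ (by exact_mod_cast hpos.ne')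
        have h3 : g ^ ((n % (p ^ k : ℕ)).toNat) = g ^ (n % (p ^ k : ℕ)) := by
          rw [← zpow_natCast, Int.toNat_of_nonneg h1]
        rw [h3]
        conv_lhs => rw [← Int.mul_ediv_add_emod n (p ^ k : ℕ), zpow_add, zpow_mul, zpow_natCast, hk,
          one_zpow, one_mul]
    have huniv : (Set.univ : Set Ω) ⊆ ⋃ i ∈ Finset.range (p ^ k), (g ^ i) • orbit M α := by
      intro ω _
      obtain ⟨x, hx⟩ := exists_smul_eq S α ω
      obtain ⟨i, hi, m, hm, rfl⟩ := hcover x
      simp only [Set.mem_iUnion]
      refine ⟨i, Finset.mem_range.2 hi, ?_⟩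
      rw [← hx, mul_smul]
      exact Set.smul_mem_smul_set ⟨⟨m, hm⟩, rfl⟩
    have : (Set.univ : Set Ω).Finite :=
      Set.Finite.subset ((Finset.range (p ^ k)).finite_toSet.biUnion fun i _ => hbf.smul_set) huniv
    exact Set.infinite_univ this
  have hb : IsBlock S (orbit T α) := IsBlock.of_orbit hstT
  have hbne : orbit T α ≠ Set.univ := by
    intro h
    apply hTne
    rw [eq_top_iff]
    intro g _
    have : g • α ∈ orbit T α := by rw [h]; trivial
    obtain ⟨m, hm⟩ := this
    have hm' : (m : S) • α = g • α := hm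
    have h1 : (m : S)⁻¹ * g ∈ stabilizer S α := by
      rw [mem_stabilizer_iff, mul_smul, ← hm', inv_smul_smul]
    have h2 := T.mul_mem m.2 (hstT h1)
    simpa using h2
  refine ⟨orbit T α, finite_block hfin hb hbne, ?_, hb⟩
  intro β hβ
  exact ⟨⟨s β, Subgroup.subset_closure (Or.inr ⟨β, hβ, rfl⟩)⟩, hs β⟩

end

end Pool.Agent.R673.FS
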