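import Mathlib
import Pool.Agent.R673.FSBlocks

/-!
If `S` is a transitive Sylow `p`-subgroup of a group `G` acting faithfully and `C` is a finite
block of `S`, then `S` meets the pointwise stabilizer of the complement of `C` in a Sylow
`p`-subgroup of it.
-/

set_option autoImplicit false
set_option linter.style.haveILetI false

namespace Pool.Agent.R673.FS

open MulAction Pointwise

section
variable {G Ω : Type*} [Group G] [MulAction G Ω] {p : ℕ} [Fact p.Prime]

/-- the pointwise stabilizer of the complement of `C` -/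
abbrev supp (G : Type*) {Ω : Type*} [Group G] [MulAction G Ω] (C : Set Ω) : Subgroup G :=
  fixingSubgroup G Cᶜ

lemma supp_maps {C : Set Ω} {g : G} (hg : g ∈ supp G C) {x : Ω} (hx : x ∈ C) : g • x ∈ C := by
  by_contra h
  have h1 : g • (g • x) = g • x := (mem_fixingSubgroup_iff G).1 hg _ h
  have : g • x = x := smul_left_cancel _ h1
  rw [this] at h
  exact h hx

lemma supp_conj {C : Set Ω} {g : G} (hg : g ∈ supp G C) {k : G} (hk : k • C = C) :
    k * g * k⁻¹ ∈ supp G C := by
  rw [mem_fixingSubgroup_iff]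
  intro x hx
  have h1 : k⁻¹ • x ∈ Cᶜ := by
    intro h
    apply hx
    rw [← hk, Set.mem_smul_set_iff_inv_smul_mem]
    exact h
  rw [mul_smul, mul_smul, (mem_fixingSubgroup_iff G).1 hg _ h1, smul_inv_smul]

theorem sylow_supp [FaithfulSMul G Ω] (S : Sylow p G) [IsPretransitive S Ω] {C : Set Ω}
    (hC : C.Finite) (hne : C.Nonempty) (hB : IsBlock S C) :
    ∃ P : Sylow p (supp G C), (P : Subgroup (supp G C)) = (S : Subgroup G).subgroupOf (supp G C) := by
  haveI : Finite (supp G C) := finite_fixing hC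
  set K : Subgroup G := (S : Subgroup G) ⊓ stabilizer G C with hK
  have hKC : ∀ k ∈ K, k • C = C := fun k hk => hk.2
  -- the conjugation action
  letI act : MulDistribMulAction K (supp G C) :=
    { smul := fun k h => ⟨(k : G) * h * (k : G)⁻¹, supp_conj h.2 (hKC k k.2)⟩
      one_smul := fun h => Subtype.ext (by
        change (1 : G) * h * (1 : G)⁻¹ = h
        group)
      mul_smul := fun k l h => Subtype.ext (by
        change ((k * l : K) : G) * h * ((k * l : K) : G)⁻¹ = (k : G) * ((l : G) * h * (l : G)⁻¹) * (k : G)⁻¹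
        rw [Subgroup.coe_mul]; group)
      smul_mul := fun k h h' => Subtype.ext (by
        change (k : G) * ((h : G) * h') * (k : G)⁻¹ =
          ((k : G) * h * (k : G)⁻¹) * ((k : G) * h' * (k : G)⁻¹)
        group)
      smul_one := fun k => Subtype.ext (by
        change (k : G) * 1 * (k : G)⁻¹ = 1
        group) }
  have act_coe : ∀ (k : K) (h : supp G C), ((k • h : supp G C) : G) = (k : G) * h * (k : G)⁻¹ :=
    fun _ _ => rfl
  have hKp : IsPGroup p K := S.isPGroup'.to_le inf_le_left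
  have hcard : ¬ p ∣ Nat.card (Sylow p (supp G C)) := not_dvd_card_sylow p (supp G C)
  obtain ⟨P, hP⟩ := hKp.nonempty_fixed_point_of_prime_not_dvd_card (Sylow p (supp G C)) hcard
  have hPfix : ∀ k : K, ∀ h : supp G C, h ∈ P → k • h ∈ P := by
    intro k h hh
    have h1 : k • P = P := hP k
    have h2 : k • h ∈ (k • P : Sylow p (supp G C)) :=
      Subgroup.smul_mem_pointwise_smul h k (P : Subgroup (supp G C)) hh
    rwa [h1] at h2
  set PG : Subgroup G := (P : Subgroup (supp G C)).map (supp G C).subtype with hPG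
  have hPGmem : ∀ g : G, g ∈ PG → g ∈ supp G C := by
    rintro _ ⟨h, -, rfl⟩; exact h.2
  -- the big group
  let Q : Subgroup G :=
    { carrier := {g | ∀ s ∈ S, ∃ h ∈ PG, ∀ x ∈ C, (s⁻¹ * g * s) • x = h • x}
      mul_mem' := by
        intro g g' hg hg' s hs
        obtain ⟨h, hh, e⟩ := hg s hs
        obtain ⟨h', hh', e'⟩ := hg' s hs
        refine ⟨h * h', PG.mul_mem hh hh', ?_⟩
        intro x hx
        have : s⁻¹ * (g * g') * s = (s⁻¹ * g * s) * (s⁻¹ * g' * s) := by group
        rw [this, mul_smul, e' x hx, e _ (supp_maps (hPGmem _ hh') hx), mul_smul]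
      one_mem' := by
        intro s _
        exact ⟨1, PG.one_mem, fun x _ => by simp⟩
      inv_mem' := by
        intro g hg s hs
        obtain ⟨h, hh, e⟩ := hg s hs
        refine ⟨h⁻¹, PG.inv_mem hh, ?_⟩
        intro x hx
        have hy : h⁻¹ • x ∈ C := supp_maps (hPGmem _ (PG.inv_mem hh)) hx
        have h1 := e _ hy
        rw [smul_inv_smul] at h1
        have : s⁻¹ * g⁻¹ * s = (s⁻¹ * g * s)⁻¹ := by group
        rw [this, inv_smul_eq_iff, h1] }
  have hQmem : ∀ g, g ∈ Q ↔ ∀ s ∈ S, ∃ h ∈ PG, ∀ x ∈ C, (s⁻¹ * g * s) • x = h • x :=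
    fun g => Iff.rfl
  have hPGQ : PG ≤ Q := by
    intro g hg s hs
    rcases hB.smul_eq_or_disjoint (⟨s, hs⟩ : S) with h | h
    · -- `s` stabilizes `C`
      have hs' : s • C = C := h
      have hinv : s⁻¹ • C = C := by rw [inv_smul_eq_iff, hs']
      have hsK : s⁻¹ ∈ K := ⟨S.inv_mem hs, hinv⟩
      obtain ⟨q, hq, hqg⟩ := hg
      refine ⟨s⁻¹ * g * s, ⟨(⟨s⁻¹, hsK⟩ : K) • q, hPfix ⟨s⁻¹, hsK⟩ q hq, ?_⟩, fun x _ => rfl⟩
      rw [← hqg]
      change ((⟨s⁻¹, hsK⟩ : K) : G) * q * ((⟨s⁻¹, hsK⟩ : K) : G)⁻¹ = s⁻¹ * q * s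
      rw [inv_inv]
    · refine ⟨1, PG.one_mem, fun x hx => ?_⟩
      have hsx : s • x ∈ Cᶜ := fun hmem =>
        Set.disjoint_left.1 h (Set.smul_mem_smul_set (a := (⟨s, hs⟩ : S)) hx) hmem
      rw [mul_smul, mul_smul, (mem_fixingSubgroup_iff G).1 (hPGmem g hg) _ hsx, inv_smul_smul,
        one_smul]
  -- `Q` is a `p`-group
  obtain ⟨n, hn⟩ := P.isPGroup'.exists_card_eq
  have hPexp : ∀ h ∈ PG, h ^ p ^ n = 1 := by
    rintro _ ⟨h, hh, rfl⟩
    have h1 : (⟨h, hh⟩ : P) ^ p ^ n = 1 := by rw [← hn]; exact pow_card_eq_one'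
    have h2 : h ^ p ^ n = 1 := by
      have := congrArg Subtype.val h1
      simpa using this
    rw [← map_pow, h2, map_one]
  obtain ⟨c0, hc0⟩ := hne
  have hQp : IsPGroup p Q := by
    rintro ⟨g, hg⟩
    refine ⟨n, Subtype.ext ?_⟩
    change g ^ p ^ n = 1
    apply FaithfulSMul.eq_of_smul_eq_smul (α := Ω)
    intro x
    obtain ⟨⟨s, hs⟩, hsx⟩ := exists_smul_eq S c0 x
    have hsx' : s • c0 = x := hsx
    obtain ⟨h, hh, e⟩ := hg s hs
    have hpow : ∀ m : ℕ, ∀ y ∈ C, (s⁻¹ * g * s) ^ m • y = h ^ m • y := by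
      intro m
      induction m with
      | zero => intro y _; simp
      | succ m ih =>
        intro y hy
        rw [pow_succ, mul_smul, e y hy, ih _ (supp_maps (hPGmem _ hh) hy), pow_succ, mul_smul]
    have h1 := hpow (p ^ n) c0 hc0
    rw [hPexp h hh, one_smul] at h1
    have h2 : (s⁻¹ * g * s) ^ p ^ n = s⁻¹ * g ^ p ^ n * s := by
      have := conj_pow (i := p ^ n) (a := s⁻¹) (b := g)
      rw [inv_inv] at this
      exact this
    rw [h2, mul_smul, mul_smul, inv_smul_eq_iff, hsx'] at h1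
    rw [h1, one_smul]
  have hSnorm : (S : Subgroup G) ≤ Subgroup.normalizer (Q : Set G) := by
    have key : ∀ t ∈ S, ∀ g ∈ Q, t * g * t⁻¹ ∈ Q := by
      intro t ht g hg s hs
      obtain ⟨h, hh, e⟩ := hg (t⁻¹ * s) (S.mul_mem (S.inv_mem ht) hs)
      refine ⟨h, hh, fun x hx => ?_⟩
      have : s⁻¹ * (t * g * t⁻¹) * s = (t⁻¹ * s)⁻¹ * g * (t⁻¹ * s) := by group
      rw [this, e x hx]
    intro t ht
    rw [Subgroup.mem_normalizer_iff]
    intro g
    constructor
    · exact key t ht g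
    · intro h
      have := key t⁻¹ (S.inv_mem ht) _ h
      have h2 : t⁻¹ * (t * g * t⁻¹) * t⁻¹⁻¹ = g := by group
      rwa [h2] at this
  have hsup : IsPGroup p ((S : Subgroup G) ⊔ Q : Subgroup G) :=
    IsPGroup.to_sup_of_normal_right' S.isPGroup' hQp hSnorm
  have hQS : Q ≤ S := by
    have := S.is_maximal' hsup le_sup_left
    rw [← this]; exact le_sup_right
  -- conclusion
  refine ⟨P, ?_⟩
  have hle : (P : Subgroup (supp G C)) ≤ (S : Subgroup G).subgroupOf (supp G C) := by
    intro h hh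
    rw [Subgroup.mem_subgroupOf]
    exact hQS (hPGQ ⟨h, hh, rfl⟩)
  have hp2 : IsPGroup p ((S : Subgroup G).subgroupOf (supp G C)) :=
    S.isPGroup'.comap_subtype
  exact (P.is_maximal' hp2 hle).symm

end

end Pool.Agent.R673.FS
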