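import Mathlib
import Pool.Agent.R673.FSLocal

/-!
Transitive Sylow `p`-subgroups of finitary permutation groups behave well with respect to normal
subgroups and quotients.
-/

set_option autoImplicit false
set_option linter.style.haveILetI false

namespace Pool.Agent.R673.FS

open MulAction Pointwise

section
variable {G Ω : Type*} [Group G] [MulAction G Ω] [FaithfulSMul G Ω] {p : ℕ} [Fact p.Prime]

/-- every element is supported in a finite block of `S` meeting it in a local Sylow subgroup -/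
lemma local_sylow (hfin : ∀ g : G, {x : Ω | g • x ≠ x}.Finite) (S : Sylow p G)
    [IsPretransitive S Ω] (g : G) :
    ∃ C : Set Ω, C.Finite ∧ g ∈ supp G C ∧
      ∃ P : Sylow p (supp G C), (P : Subgroup (supp G C)) =
        (S : Subgroup G).subgroupOf (supp G C) := by
  by_cases hΩ : Nonempty Ω
  · obtain ⟨c⟩ := hΩ
    haveI : FaithfulSMul S Ω := ⟨fun {a b} h => Subtype.ext (FaithfulSMul.eq_of_smul_eq_smul
      (α := Ω) h)⟩
    obtain ⟨C, hC, hsub, hB⟩ := exists_block (S := S) (Ω := Ω) S.isPGroup'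
      (fun s => hfin (s : G)) ({x : Ω | g • x ≠ x} ∪ {c}) ((hfin g).union (Set.finite_singleton c))
    refine ⟨C, hC, ?_, sylow_supp S hC ⟨c, hsub (Or.inr rfl)⟩ hB⟩
    rw [mem_fixingSubgroup_iff]
    intro x hx
    by_contra h
    exact hx (hsub (Or.inl h))
  · rw [not_nonempty_iff] at hΩ
    -- the group is trivial
    haveI : Subsingleton G := ⟨fun a b => FaithfulSMul.eq_of_smul_eq_smul (α := Ω)
      (fun x => (hΩ.false x).elim)⟩
    refine ⟨∅, Set.finite_empty, ?_, default, ?_⟩
    · rw [Subsingleton.elim g 1]; exact Subgroup.one_mem _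
    · ext x
      have hx : x = 1 := Subtype.ext (Subsingleton.elim _ _)
      rw [hx]
      exact ⟨fun _ => Subgroup.one_mem _, fun _ => Subgroup.one_mem _⟩

/-- `S ∩ N` is a Sylow `p`-subgroup of `N` -/
theorem normal_case (hfin : ∀ g : G, {x : Ω | g • x ≠ x}.Finite) (S : Sylow p G)
    [IsPretransitive S Ω] (N : Subgroup G) [N.Normal] :
    ∃ T : Sylow p N, (T : Subgroup N) = (S : Subgroup G).subgroupOf N := by
  refine ⟨⟨(S : Subgroup G).subgroupOf N, S.isPGroup'.comap_subtype, ?_⟩, rfl⟩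
  intro Q hQ hle
  apply le_antisymm _ hle
  intro t ht
  rw [Subgroup.mem_subgroupOf]
  obtain ⟨C, hC, htC, P, hP⟩ := local_sylow hfin S (t : G)
  haveI : Finite (supp G C) := finite_fixing hC
  set TH : Subgroup (supp G C) := (Q.map N.subtype).subgroupOf (supp G C) with hTH
  have hTHp : IsPGroup p TH := (hQ.map _).comap_subtype
  obtain ⟨P', hP'⟩ := hTHp.exists_le_sylow
  obtain ⟨h, hh⟩ := MulAction.exists_smul_eq (supp G C) P' P
  set PN : Subgroup (supp G C) := (P : Subgroup (supp G C)) ⊓ N.subgroupOf (supp G C) with hPN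
  have hle2 : PN ≤ TH := by
    intro y hy
    rw [hTH, Subgroup.mem_subgroupOf]
    have hyS : (y : G) ∈ S := by
      have : y ∈ (P : Subgroup (supp G C)) := hy.1
      rw [hP, Subgroup.mem_subgroupOf] at this
      exact this
    exact ⟨⟨(y : G), hy.2⟩, hle (by rw [Subgroup.mem_subgroupOf]; exact hyS), rfl⟩
  have hconj : ∀ x ∈ TH, h * x * h⁻¹ ∈ PN := by
    intro x hx
    refine ⟨?_, ?_⟩
    · rw [← hh]
      have : x ∈ (P' : Subgroup (supp G C)) := hP' hx
      have h2 := Subgroup.smul_mem_pointwise_smul x (MulAut.conj h) _ this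
      exact h2
    · obtain ⟨⟨z, hz⟩, -, hzx⟩ := hx
      have hxN : (x : G) ∈ N := by
        have : (x : G) = z := hzx.symm
        rw [this]; exact hz
      change (h : G) * (x : G) * (h : G)⁻¹ ∈ N
      exact Subgroup.Normal.conj_mem inferInstance _ hxN _
  have hcard : (TH : Set (supp G C)).ncard ≤ (PN : Set (supp G C)).ncard := by
    apply Set.ncard_le_ncard_of_injOn (fun x => h * x * h⁻¹) hconj
    · intro a _ b _ hab
      simpa using hab
  have heq : (PN : Set (supp G C)) = TH := Set.eq_of_subset_of_ncard_le hle2 hcard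
  have htTH : (⟨(t : G), htC⟩ : supp G C) ∈ (TH : Set (supp G C)) := by
    rw [SetLike.mem_coe, hTH, Subgroup.mem_subgroupOf]
    exact ⟨t, ht, rfl⟩
  rw [← heq] at htTH
  have : (⟨(t : G), htC⟩ : supp G C) ∈ (P : Subgroup (supp G C)) := htTH.1
  rw [hP, Subgroup.mem_subgroupOf] at this
  exact this

/-- `S N / N` is a Sylow `p`-subgroup of `G / N` -/
theorem quotient_case (hfin : ∀ g : G, {x : Ω | g • x ≠ x}.Finite) (S : Sylow p G)
    [IsPretransitive S Ω] (N : Subgroup G) [N.Normal] :
    ∃ T : Sylow p (G ⧸ N), (T : Subgroup (G ⧸ N)) =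
      (S : Subgroup G).map (QuotientGroup.mk' N) := by
  refine ⟨⟨(S : Subgroup G).map (QuotientGroup.mk' N), S.isPGroup'.map _, ?_⟩, rfl⟩
  intro R hR hle
  apply le_antisymm _ hle
  intro r hr
  obtain ⟨g, rfl⟩ := QuotientGroup.mk'_surjective N r
  obtain ⟨C, hC, hgC, P, hP⟩ := local_sylow hfin S g
  haveI : Finite (supp G C) := finite_fixing hC
  let φ : supp G C →* G ⧸ N := (QuotientGroup.mk' N).comp (supp G C).subtype
  set RH : Subgroup (supp G C) := R.comap φ with hRH
  have hPRH : (P : Subgroup (supp G C)) ≤ RH := by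
    intro x hx
    rw [hP, Subgroup.mem_subgroupOf] at hx
    exact hle ⟨(x : G), hx, rfl⟩
  let PR : Sylow p RH := P.subtype hPRH
  let ψ : RH →* G ⧸ N := φ.comp RH.subtype
  have hψ : Function.Surjective ψ.rangeRestrict := ψ.rangeRestrict_surjective
  have hrange : ψ.range ≤ R := by
    rintro _ ⟨x, rfl⟩
    exact x.2
  have hpr : IsPGroup p ψ.range := hR.to_le hrange
  have htop : ((PR.mapSurjective hψ : Sylow p ψ.range) : Subgroup ψ.range) = ⊤ := by
    have h1 : IsPGroup p (⊤ : Subgroup ψ.range) := hpr.to_subgroup ⊤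
    exact ((PR.mapSurjective hψ).is_maximal' h1 le_top).symm
  have hgR : (⟨g, hgC⟩ : supp G C) ∈ RH := hr
  have h1 : ψ.rangeRestrict ⟨⟨g, hgC⟩, hgR⟩ ∈ ((PR.mapSurjective hψ : Sylow p ψ.range) : Subgroup ψ.range) := by
    rw [htop]; trivial
  rw [Sylow.coe_mapSurjective] at h1
  obtain ⟨s, hs, hsg⟩ := h1
  have hs' : (s : supp G C) ∈ P := hs
  have hs2 : ((s : supp G C) : G) ∈ S := by
    have : (s : supp G C) ∈ (P : Subgroup (supp G C)) := hs'
    rw [hP, Subgroup.mem_subgroupOf] at this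
    exact this
  refine ⟨((s : supp G C) : G), hs2, ?_⟩
  have := congrArg Subtype.val hsg
  exact this

end

end Pool.Agent.R673.FS
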