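import Mathlib

/-!
Twisted fractional linear groups (Karzel-Tits type groups) over a field `K` with an involutory
automorphism `s` and an `s`-invariant `ℤ`-valued degree: the permutations
`x ↦ M (s^(deg det M) x)` of the projective line, `M` an invertible matrix.
-/

set_option autoImplicit false

namespace Pool.Agent.R673.KT

open Matrix Projectivization

/-- A field with an involutory automorphism `s` and a degree function invariant under `s`. -/
structure Twist (K : Type) [Field K] where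
  /-- the automorphism -/
  s : K ≃+* K
  s2 : ∀ x, s (s x) = x
  /-- the degree -/
  deg : K → ℤ
  deg_mul : ∀ x y, x ≠ 0 → y ≠ 0 → deg (x * y) = deg x + deg y
  deg_s : ∀ x, deg (s x) = deg x

variable {K : Type} [Field K] (T : Twist K)

/-- `s` if `n` is odd, the identity if `n` is even -/
def Twist.tau (n : ℤ) : K →+* K := if Even n then RingHom.id K else T.s.toRingHom

lemma tau_even {n : ℤ} (h : Even n) (x : K) : T.tau n x = x := by
  simp [Twist.tau, h]

lemma tau_odd {n : ℤ} (h : ¬ Even n) (x : K) : T.tau n x = T.s x := by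
  simp [Twist.tau, h]

lemma tau_add (n m : ℤ) (x : K) : T.tau (n + m) x = T.tau n (T.tau m x) := by
  by_cases hn : Even n <;> by_cases hm : Even m
  · rw [tau_even T (hn.add hm), tau_even T hn, tau_even T hm]
  · rw [tau_odd T (n := n + m) (by rw [Int.even_add]; tauto), tau_even T hn, tau_odd T hm]
  · rw [tau_odd T (n := n + m) (by rw [Int.even_add]; tauto), tau_odd T hn, tau_even T hm]
  · rw [tau_even T (n := n + m) (by rw [Int.even_add]; tauto), tau_odd T hn, tau_odd T hm, T.s2]

lemma tau_neg_self (n : ℤ) (x : K) : T.tau n (T.tau (-n) x) = x := by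
  rw [← tau_add, add_neg_cancel, tau_even T (by simp)]

lemma tau_self_neg (n : ℤ) (x : K) : T.tau (-n) (T.tau n x) = x := by
  rw [← tau_add, neg_add_cancel, tau_even T (by simp)]

lemma tau_inj (n : ℤ) : Function.Injective (T.tau n) := (T.tau n).injective

lemma deg_tau (n : ℤ) (x : K) : T.deg (T.tau n x) = T.deg x := by
  by_cases hn : Even n
  · rw [tau_even T hn]
  · rw [tau_odd T hn, T.deg_s]

lemma deg_one : T.deg 1 = 0 := by
  have := T.deg_mul 1 1 one_ne_zero one_ne_zero
  rw [mul_one] at this; omega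

/-- the coordinate vectors -/
abbrev V (K : Type) := Fin 2 → K

/-- the twisted action of a matrix on vectors -/
def act (M : Matrix (Fin 2) (Fin 2) K) (v : V K) : V K :=
  M *ᵥ (fun i => T.tau (T.deg M.det) (v i))

/-- the entrywise image of a matrix -/
def tm (n : ℤ) (M : Matrix (Fin 2) (Fin 2) K) : Matrix (Fin 2) (Fin 2) K := M.map (T.tau n)

lemma det_tm (n : ℤ) (M : Matrix (Fin 2) (Fin 2) K) : (tm T n M).det = T.tau n M.det := by
  rw [tm, ← RingHom.mapMatrix_apply, ← RingHom.map_det]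

lemma tau_mulVec (n : ℤ) (M : Matrix (Fin 2) (Fin 2) K) (v : V K) :
    (fun i => T.tau n ((M *ᵥ v) i)) = tm T n M *ᵥ (fun i => T.tau n (v i)) := by
  ext i
  simp only [tm, Matrix.mulVec, dotProduct, map_sum, map_mul, Matrix.map_apply]

lemma act_act (M N : Matrix (Fin 2) (Fin 2) K) (hM : M.det ≠ 0) (hN : N.det ≠ 0) (v : V K) :
    act T M (act T N v) = act T (M * tm T (T.deg M.det) N) v := by
  unfold act
  rw [tau_mulVec, Matrix.mulVec_mulVec]
  congr 1
  ext i
  rw [Matrix.det_mul, det_tm, T.deg_mul _ _ hM ((map_ne_zero _).2 hN), deg_tau, tau_add]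

lemma act_inj (M : Matrix (Fin 2) (Fin 2) K) (hM : M.det ≠ 0) :
    Function.Injective (act T M) := by
  intro v w h
  unfold act at h
  have h1 := Matrix.mulVec_injective_iff_isUnit.2
    ((Matrix.isUnit_iff_isUnit_det M).2 (isUnit_iff_ne_zero.2 hM)) h
  ext i
  exact tau_inj T _ (congrFun h1 i)

lemma act_smul (M : Matrix (Fin 2) (Fin 2) K) (c : K) (v : V K) :
    act T M (c • v) = T.tau (T.deg M.det) c • act T M v := by
  unfold act
  rw [← Matrix.mulVec_smul]
  congr 1
  ext i
  simp

lemma act_zero (M : Matrix (Fin 2) (Fin 2) K) : act T M 0 = 0 := by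
  have := act_smul T M 0 0
  simpa using this

lemma act_ne_zero (M : Matrix (Fin 2) (Fin 2) K) (hM : M.det ≠ 0) {v : V K} (hv : v ≠ 0) :
    act T M v ≠ 0 := by
  intro h
  exact hv (act_inj T M hM (by rw [h, act_zero]))

/-- the twisted inverse matrix -/
noncomputable def tinv (M : Matrix (Fin 2) (Fin 2) K) : Matrix (Fin 2) (Fin 2) K :=
  tm T (-T.deg M.det) M⁻¹

lemma det_tinv_ne (M : Matrix (Fin 2) (Fin 2) K) (hM : M.det ≠ 0) : (tinv T M).det ≠ 0 := by
  rw [tinv, det_tm, map_ne_zero, Matrix.det_nonsing_inv]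
  simpa using hM

lemma deg_inv' (x : K) (hx : x ≠ 0) : T.deg x⁻¹ = - T.deg x := by
  have := T.deg_mul x x⁻¹ hx (inv_ne_zero hx)
  rw [mul_inv_cancel₀ hx, deg_one] at this; omega

lemma deg_det_tinv (M : Matrix (Fin 2) (Fin 2) K) (hM : M.det ≠ 0) :
    T.deg (tinv T M).det = - T.deg M.det := by
  rw [tinv, det_tm, deg_tau, Matrix.det_nonsing_inv, Ring.inverse_eq_inv', deg_inv' T _ hM]

lemma tm_tm (n m : ℤ) (M : Matrix (Fin 2) (Fin 2) K) : tm T n (tm T m M) = tm T (n + m) M := by
  ext i j; simp [tm, tau_add]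

lemma tm_mul (n : ℤ) (M N : Matrix (Fin 2) (Fin 2) K) : tm T n (M * N) = tm T n M * tm T n N := by
  ext i j; simp [tm, Matrix.mul_apply]

lemma tm_one (n : ℤ) : tm T n (1 : Matrix (Fin 2) (Fin 2) K) = 1 := by
  ext i j; simp [tm, Matrix.one_apply]

lemma tm_even {n : ℤ} (h : Even n) (M : Matrix (Fin 2) (Fin 2) K) : tm T n M = M := by
  ext i j; simp [tm, tau_even T h]

lemma act_one (v : V K) : act T 1 v = v := by
  unfold act
  rw [Matrix.one_mulVec]
  ext i
  rw [tau_even]
  rw [Matrix.det_one, deg_one]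
  simp

lemma act_tinv_act (M : Matrix (Fin 2) (Fin 2) K) (hM : M.det ≠ 0) (v : V K) :
    act T (tinv T M) (act T M v) = v := by
  rw [act_act T _ _ (det_tinv_ne T M hM) hM, deg_det_tinv T M hM, tinv, ← tm_mul,
    Matrix.nonsing_inv_mul _ (isUnit_iff_ne_zero.2 hM), tm_one, act_one]

lemma act_act_tinv (M : Matrix (Fin 2) (Fin 2) K) (hM : M.det ≠ 0) (v : V K) :
    act T M (act T (tinv T M) v) = v := by
  rw [act_act T _ _ hM (det_tinv_ne T M hM), tinv, tm_tm, add_neg_cancel, tm_even T (by simp),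
    Matrix.mul_nonsing_inv _ (isUnit_iff_ne_zero.2 hM), act_one]

/-- the projective line -/
abbrev X (K : Type) [Field K] := Projectivization K (V K)

/-- the permutation of the projective line -/
def fn (M : Matrix (Fin 2) (Fin 2) K) (hM : M.det ≠ 0) : X K → X K :=
  Projectivization.lift
    (fun v => Projectivization.mk K (act T M v.1) (act_ne_zero T M hM v.2))
    (by
      rintro ⟨a, ha⟩ ⟨b, hb⟩ t h
      simp only at h
      subst h
      rw [Projectivization.mk_eq_mk_iff']
      exact ⟨T.tau (T.deg M.det) t, (act_smul T M t b).symm⟩)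

lemma fn_mk (M : Matrix (Fin 2) (Fin 2) K) (hM : M.det ≠ 0) (v : V K) (hv : v ≠ 0) :
    fn T M hM (Projectivization.mk K v hv) =
      Projectivization.mk K (act T M v) (act_ne_zero T M hM hv) := rfl

/-- the permutation of the projective line -/
noncomputable def pm (M : Matrix (Fin 2) (Fin 2) K) (hM : M.det ≠ 0) : Equiv.Perm (X K) where
  toFun := fn T M hM
  invFun := fn T (tinv T M) (det_tinv_ne T M hM)
  left_inv := by
    intro x
    induction x using Projectivization.ind with
    | h v hv =>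
      rw [fn_mk, fn_mk]
      congr 1
      exact act_tinv_act T M hM v
  right_inv := by
    intro x
    induction x using Projectivization.ind with
    | h v hv =>
      rw [fn_mk, fn_mk]
      congr 1
      exact act_act_tinv T M hM v

lemma pm_mk (M : Matrix (Fin 2) (Fin 2) K) (hM : M.det ≠ 0) (v : V K) (hv : v ≠ 0) :
    pm T M hM (Projectivization.mk K v hv) =
      Projectivization.mk K (act T M v) (act_ne_zero T M hM hv) := rfl

lemma pm_mul (M N : Matrix (Fin 2) (Fin 2) K) (hM : M.det ≠ 0) (hN : N.det ≠ 0) :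
    pm T M hM * pm T N hN = pm T (M * tm T (T.deg M.det) N)
      (by rw [Matrix.det_mul, det_tm]; exact mul_ne_zero hM ((map_ne_zero _).2 hN)) := by
  ext x
  induction x using Projectivization.ind with
  | h v hv =>
    rw [Equiv.Perm.mul_apply, pm_mk, pm_mk, pm_mk]
    congr 1
    exact act_act T M N hM hN v

/-- the twisted fractional linear group -/
noncomputable def GG : Subgroup (Equiv.Perm (X K)) where
  carrier := {p | ∃ (M : Matrix (Fin 2) (Fin 2) K) (hM : M.det ≠ 0), p = pm T M hM}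
  mul_mem' := by
    rintro _ _ ⟨M, hM, rfl⟩ ⟨N, hN, rfl⟩
    exact ⟨_, _, pm_mul T M N hM hN⟩
  one_mem' := by
    refine ⟨1, by simp, ?_⟩
    ext x
    induction x using Projectivization.ind with
    | h v hv =>
      rw [pm_mk, Equiv.Perm.one_apply]
      congr 1
      exact (act_one T v).symm
  inv_mem' := by
    rintro _ ⟨M, hM, rfl⟩
    refine ⟨tinv T M, det_tinv_ne T M hM, ?_⟩
    rw [inv_eq_iff_mul_eq_one]
    ext x
    induction x using Projectivization.ind with
    | h v hv =>
      rw [Equiv.Perm.mul_apply, pm_mk, pm_mk, Equiv.Perm.one_apply]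
      congr 1
      exact act_act_tinv T M hM v

lemma pm_mem (M : Matrix (Fin 2) (Fin 2) K) (hM : M.det ≠ 0) : pm T M hM ∈ GG T := ⟨M, hM, rfl⟩

/-! ### The three base points -/

/-- `(1, 0)` -/
def e1 : V K := ![1, 0]
/-- `(0, 1)` -/
def e2 : V K := ![0, 1]
/-- `(1, 1)` -/
def e3 : V K := ![1, 1]

lemma e1_ne : (e1 : V K) ≠ 0 := fun h => by simpa [e1] using congrFun h 0
lemma e2_ne : (e2 : V K) ≠ 0 := fun h => by simpa [e2] using congrFun h 1
lemma e3_ne : (e3 : V K) ≠ 0 := fun h => by simpa [e3] using congrFun h 0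

/-- the point `(1 : 0)` -/
noncomputable def p1 : X K := Projectivization.mk K e1 e1_ne
/-- the point `(0 : 1)` -/
noncomputable def p2 : X K := Projectivization.mk K e2 e2_ne
/-- the point `(1 : 1)` -/
noncomputable def p3 : X K := Projectivization.mk K e3 e3_ne

lemma tau_e1 (n : ℤ) : (fun i => T.tau n (e1 i)) = (e1 : V K) := by
  ext i; fin_cases i <;> simp [e1]
lemma tau_e2 (n : ℤ) : (fun i => T.tau n (e2 i)) = (e2 : V K) := by
  ext i; fin_cases i <;> simp [e2]
lemma tau_e3 (n : ℤ) : (fun i => T.tau n (e3 i)) = (e3 : V K) := by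
  ext i; fin_cases i <;> simp [e3]

lemma act_e1 (M : Matrix (Fin 2) (Fin 2) K) : act T M e1 = ![M 0 0, M 1 0] := by
  unfold act; rw [tau_e1]; ext i; fin_cases i <;> simp [e1, Matrix.mulVec, dotProduct]
lemma act_e2 (M : Matrix (Fin 2) (Fin 2) K) : act T M e2 = ![M 0 1, M 1 1] := by
  unfold act; rw [tau_e2]; ext i; fin_cases i <;> simp [e2, Matrix.mulVec, dotProduct]
lemma act_e3 (M : Matrix (Fin 2) (Fin 2) K) :
    act T M e3 = ![M 0 0 + M 0 1, M 1 0 + M 1 1] := by
  unfold act; rw [tau_e3]; ext i; fin_cases i <;> simp [e3, Matrix.mulVec, dotProduct]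

lemma mk_congr {v w : V K} (hv : v ≠ 0) (hw : w ≠ 0) (h : v = w) :
    Projectivization.mk K v hv = Projectivization.mk K w hw := by subst h; rfl

/-- every triple of distinct points is the image of the base triple -/
lemma triple (a b c : X K) (hab : a ≠ b) (hac : a ≠ c) (hbc : b ≠ c) :
    ∃ g ∈ GG T, g p1 = a ∧ g p2 = b ∧ g p3 = c := by
  induction a using Projectivization.ind with
  | h u hu =>
  induction b using Projectivization.ind with
  | h v hv =>
  induction c using Projectivization.ind with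
  | h w hw =>
    have hD : u 0 * v 1 - v 0 * u 1 ≠ 0 := by
      intro h
      apply hab
      rw [Projectivization.mk_eq_mk_iff']
      by_cases hv0 : v 0 = 0
      · have hv1 : v 1 ≠ 0 := by
          intro h1; apply hv; ext i; fin_cases i <;> simp [hv0, h1]
        have hu0 : u 0 = 0 := by
          rw [hv0, zero_mul, sub_zero] at h
          exact (mul_eq_zero.1 h).resolve_right hv1
        refine ⟨u 1 / v 1, ?_⟩
        ext i; fin_cases i
        · simp [hv0, hu0]
        · simp [hv1]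
      · refine ⟨u 0 / v 0, ?_⟩
        ext i; fin_cases i
        · simp [hv0]
        · simp only [Fin.mk_one, Pi.smul_apply, smul_eq_mul]
          field_simp
          linear_combination h
    set D := u 0 * v 1 - v 0 * u 1 with hDdef
    set α := (w 0 * v 1 - v 0 * w 1) / D with hα
    set β := (u 0 * w 1 - w 0 * u 1) / D with hβ
    have hw0 : α * u 0 + β * v 0 = w 0 := by
      rw [hα, hβ]; field_simp; ring
    have hw1 : α * u 1 + β * v 1 = w 1 := by
      rw [hα, hβ]; field_simp; ring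
    have hα0 : α ≠ 0 := by
      intro h0
      apply hbc
      rw [h0, zero_mul, zero_add] at hw0 hw1
      symm
      rw [Projectivization.mk_eq_mk_iff']
      exact ⟨β, by ext i; fin_cases i <;> simp [hw0, hw1]⟩
    have hβ0 : β ≠ 0 := by
      intro h0
      apply hac
      rw [h0, zero_mul, add_zero] at hw0 hw1
      symm
      rw [Projectivization.mk_eq_mk_iff']
      exact ⟨α, by ext i; fin_cases i <;> simp [hw0, hw1]⟩
    have hdet : (!![α * u 0, β * v 0; α * u 1, β * v 1] : Matrix (Fin 2) (Fin 2) K).det ≠ 0 := by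
      rw [Matrix.det_fin_two_of]
      have : α * u 0 * (β * v 1) - β * v 0 * (α * u 1) = α * β * D := by rw [hDdef]; ring
      rw [this]
      exact mul_ne_zero (mul_ne_zero hα0 hβ0) hD
    refine ⟨pm T _ hdet, pm_mem T _ hdet, ?_, ?_, ?_⟩
    · rw [p1, pm_mk, Projectivization.mk_eq_mk_iff']
      refine ⟨α, ?_⟩
      rw [act_e1]
      ext i; fin_cases i <;> simp
    · rw [p2, pm_mk, Projectivization.mk_eq_mk_iff']
      refine ⟨β, ?_⟩
      rw [act_e2]
      ext i; fin_cases i <;> simp
    · rw [p3, pm_mk]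
      apply mk_congr
      rw [act_e3]
      ext i; fin_cases i
      · simpa using hw0
      · simpa using hw1

lemma p12 : (p1 : X K) ≠ p2 := by
  intro h
  rw [p1, p2, Projectivization.mk_eq_mk_iff'] at h
  obtain ⟨a, ha⟩ := h
  simpa [e1, e2] using congrFun ha 0
lemma p13 : (p1 : X K) ≠ p3 := by
  intro h
  rw [p1, p3, Projectivization.mk_eq_mk_iff'] at h
  obtain ⟨a, ha⟩ := h
  have h0 := congrFun ha 0
  have h1 := congrFun ha 1
  simp [e1, e3] at h0 h1
  rw [h1] at h0
  exact zero_ne_one h0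
lemma p23 : (p2 : X K) ≠ p3 := by
  intro h
  rw [p2, p3, Projectivization.mk_eq_mk_iff'] at h
  obtain ⟨a, ha⟩ := h
  have h0 := congrFun ha 0
  have h1 := congrFun ha 1
  simp [e2, e3] at h0 h1
  rw [h0] at h1
  exact zero_ne_one h1

/-- an element fixing the two base points is diagonal -/
lemma diag_of_fix (M : Matrix (Fin 2) (Fin 2) K) (hM : M.det ≠ 0) (h1 : pm T M hM p1 = p1)
    (h2 : pm T M hM p2 = p2) : M 1 0 = 0 ∧ M 0 1 = 0 ∧ M 0 0 ≠ 0 ∧ M 1 1 ≠ 0 := by
  rw [p1, pm_mk, Projectivization.mk_eq_mk_iff'] at h1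
  obtain ⟨a, ha⟩ := h1
  rw [act_e1] at ha
  rw [p2, pm_mk, Projectivization.mk_eq_mk_iff'] at h2
  obtain ⟨b, hb⟩ := h2
  rw [act_e2] at hb
  have h10 : M 1 0 = 0 := by simpa [e1, eq_comm] using congrFun ha 1
  have h01 : M 0 1 = 0 := by simpa [e2, eq_comm] using congrFun hb 0
  rw [Matrix.det_fin_two, h10, mul_zero, sub_zero] at hM
  exact ⟨h10, h01, left_ne_zero_of_mul hM, right_ne_zero_of_mul hM⟩

lemma scalar_eq_one (M : Matrix (Fin 2) (Fin 2) K) (hM : M.det ≠ 0) (h10 : M 1 0 = 0)
    (h01 : M 0 1 = 0) (h : M 0 0 = M 1 1) : pm T M hM = 1 := by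
  have h0 : M 1 1 ≠ 0 := by
    rw [Matrix.det_fin_two, h10, mul_zero, sub_zero] at hM
    exact right_ne_zero_of_mul hM
  have hd : Even (T.deg M.det) := by
    rw [Matrix.det_fin_two, h10, mul_zero, sub_zero, h, T.deg_mul _ _ h0 h0]
    exact ⟨_, rfl⟩
  ext x
  induction x using Projectivization.ind with
  | h v hv =>
    rw [pm_mk, Equiv.Perm.one_apply, Projectivization.mk_eq_mk_iff']
    refine ⟨M 1 1, ?_⟩
    unfold act
    ext i
    fin_cases i <;> simp [Matrix.mulVec, dotProduct, tau_even T hd, h10, h01, h]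

/-- three-point stabilizers are trivial -/
lemma three_fix (g : Equiv.Perm (X K)) (hg : g ∈ GG T) (h1 : g p1 = p1) (h2 : g p2 = p2)
    (h3 : g p3 = p3) : g = 1 := by
  obtain ⟨M, hM, rfl⟩ := hg
  obtain ⟨h10, h01, h00, h11⟩ := diag_of_fix T M hM h1 h2
  apply scalar_eq_one T M hM h10 h01
  rw [p3, pm_mk, Projectivization.mk_eq_mk_iff'] at h3
  obtain ⟨a, ha⟩ := h3
  rw [act_e3, h10, h01] at ha
  have e0 := congrFun ha 0
  have e1' := congrFun ha 1
  simp [e3] at e0 e1'
  rw [← e0, ← e1']

/-- two-point stabilizers contain no involutions -/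
lemma two_fix [CharP K 2] (g : Equiv.Perm (X K)) (hg : g ∈ GG T) (h1 : g p1 = p1)
    (h2 : g p2 = p2) (hgg : g * g = 1) : g = 1 := by
  obtain ⟨M, hM, rfl⟩ := hg
  obtain ⟨h10, h01, h00, h11⟩ := diag_of_fix T M hM h1 h2
  apply scalar_eq_one T M hM h10 h01
  have h4 : (pm T M hM * pm T M hM) p3 = p3 := by rw [hgg]; rfl
  rw [pm_mul, p3, pm_mk, Projectivization.mk_eq_mk_iff'] at h4
  obtain ⟨a, ha⟩ := h4
  rw [act_e3] at ha
  set n := T.deg M.det with hn
  have e0 := congrFun ha 0
  have e1' := congrFun ha 1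
  simp [e3, tm, Matrix.mul_apply, h10, h01] at e0 e1'
  -- `M00 τ(M00) = M11 τ(M11)`
  have hq : (M 0 0 / M 1 1) * T.tau n (M 0 0 / M 1 1) = 1 := by
    rw [map_div₀, div_mul_div_comm, div_eq_one_iff_eq (mul_ne_zero h11 ((map_ne_zero _).2 h11)),
      ← e0, ← e1']
  set q := M 0 0 / M 1 1 with hqd
  have hq0 : q ≠ 0 := div_ne_zero h00 h11
  have hdq : T.deg q = 0 := by
    have := congrArg T.deg hq
    rw [T.deg_mul _ _ hq0 ((map_ne_zero _).2 hq0), deg_tau, deg_one] at this
    omega
  have hM00 : M 0 0 = q * M 1 1 := by rw [hqd]; field_simp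
  have hn' : Even n := by
    rw [hn, Matrix.det_fin_two, h10, mul_zero, sub_zero, hM00, T.deg_mul _ _ (mul_ne_zero hq0 h11) h11,
      T.deg_mul _ _ hq0 h11, hdq]
    exact ⟨T.deg (M 1 1), by ring⟩
  rw [tau_even T hn'] at hq
  have h5 : (q - 1) * (q - 1) = 0 := by
    have h2 : (2 : K) = 0 := CharTwo.two_eq_zero
    linear_combination hq + (1 - q) * h2
  have h6 : q = 1 := by
    have := mul_self_eq_zero.1 h5
    exact sub_eq_zero.1 this
  rw [hM00, h6, one_mul]

end Pool.Agent.R673.KT
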