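import Mathlib
import Pool.Agent.R673.KT

/-!
A sharply triply transitive group of characteristic two which is not `PGL_2(P)`:
the twisted group over `F_2(t)`, the twist being `t ↦ t + 1` on matrices of odd degree.
-/

set_option autoImplicit false

namespace Pool.Agent.R673.KT

open Matrix Projectivization

section general

variable {K : Type} [Field K] (T : Twist K)

lemma transitive3 (a b c a' b' c' : X K) (hab : a ≠ b) (hac : a ≠ c) (hbc : b ≠ c)
    (hab' : a' ≠ b') (hac' : a' ≠ c') (hbc' : b' ≠ c') :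
    ∃ g ∈ GG T, g a = a' ∧ g b = b' ∧ g c = c' := by
  obtain ⟨g, hg, h1, h2, h3⟩ := triple T a b c hab hac hbc
  obtain ⟨g', hg', h1', h2', h3'⟩ := triple T a' b' c' hab' hac' hbc'
  refine ⟨g' * g⁻¹, (GG T).mul_mem hg' ((GG T).inv_mem hg), ?_, ?_, ?_⟩
  · rw [Equiv.Perm.mul_apply, Equiv.Perm.inv_eq_iff_eq.2 h1.symm, h1']
  · rw [Equiv.Perm.mul_apply, Equiv.Perm.inv_eq_iff_eq.2 h2.symm, h2']
  · rw [Equiv.Perm.mul_apply, Equiv.Perm.inv_eq_iff_eq.2 h3.symm, h3']

lemma conj_eq_one {α : Type} (g h : Equiv.Perm α) (H : h⁻¹ * g * h = 1) : g = 1 := by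
  have : g = h * (h⁻¹ * g * h) * h⁻¹ := by group
  rw [this, H]; group

lemma fix3 (a b c : X K) (hab : a ≠ b) (hac : a ≠ c) (hbc : b ≠ c) (g : Equiv.Perm (X K))
    (hg : g ∈ GG T) (h1 : g a = a) (h2 : g b = b) (h3 : g c = c) : g = 1 := by
  obtain ⟨h, hh, k1, k2, k3⟩ := triple T a b c hab hac hbc
  apply conj_eq_one g h
  apply three_fix T _ ((GG T).mul_mem ((GG T).mul_mem ((GG T).inv_mem hh) hg) hh)
  · rw [Equiv.Perm.mul_apply, Equiv.Perm.mul_apply, k1, h1, Equiv.Perm.inv_eq_iff_eq, k1]
  · rw [Equiv.Perm.mul_apply, Equiv.Perm.mul_apply, k2, h2, Equiv.Perm.inv_eq_iff_eq, k2]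
  · rw [Equiv.Perm.mul_apply, Equiv.Perm.mul_apply, k3, h3, Equiv.Perm.inv_eq_iff_eq, k3]

lemma exists_third (a b : X K) : ∃ c, a ≠ c ∧ b ≠ c := by
  by_contra hcon
  push Not at hcon
  -- one of the three base points is different from both
  have key : ∀ c : X K, c = a ∨ c = b := by
    intro c
    by_cases h : a = c
    · exact Or.inl h.symm
    · exact Or.inr (hcon c h).symm
  rcases key p1 with h1 | h1 <;> rcases key p2 with h2 | h2 <;> rcases key p3 with h3 | h3
  · exact p12 (h1.trans h2.symm)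
  · exact p12 (h1.trans h2.symm)
  · exact p13 (h1.trans h3.symm)
  · exact p23 (h2.trans h3.symm)
  · exact p23 (h2.trans h3.symm)
  · exact p13 (h1.trans h3.symm)
  · exact p12 (h1.trans h2.symm)
  · exact p12 (h1.trans h2.symm)

lemma fix2 [CharP K 2] (a b : X K) (hab : a ≠ b) (g : Equiv.Perm (X K))
    (hg : g ∈ GG T) (h1 : g a = a) (h2 : g b = b) (hgg : g * g = 1) : g = 1 := by
  obtain ⟨c, hac, hbc⟩ := exists_third a b
  obtain ⟨h, hh, k1, k2, k3⟩ := triple T a b c hab hac hbc
  apply conj_eq_one g h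
  apply two_fix T _ ((GG T).mul_mem ((GG T).mul_mem ((GG T).inv_mem hh) hg) hh)
  · rw [Equiv.Perm.mul_apply, Equiv.Perm.mul_apply, k1, h1, Equiv.Perm.inv_eq_iff_eq, k1]
  · rw [Equiv.Perm.mul_apply, Equiv.Perm.mul_apply, k2, h2, Equiv.Perm.inv_eq_iff_eq, k2]
  · have : h⁻¹ * g * h * (h⁻¹ * g * h) = h⁻¹ * (g * g) * h := by group
    rw [this, hgg]; group

end general

/-! ### Two-point stabilizers in `PGL_2(P)` are commutative -/

/-- `σ` is induced by the matrix `A` -/
def Induced (P : Type) [Field P] (σ : Equiv.Perm (Projectivization P (Fin 2 → P)))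
    (A : Matrix (Fin 2) (Fin 2) P) : Prop :=
  ∀ (v : Fin 2 → P) (hv : v ≠ 0) (w : Fin 2 → P) (hw : w ≠ 0),
    w = Matrix.mulVec A v → σ (Projectivization.mk P v hv) = Projectivization.mk P w hw

lemma eigen {P : Type} [Field P] {σ : Equiv.Perm (Projectivization P (Fin 2 → P))}
    {A : Matrix (Fin 2) (Fin 2) P} (hA : IsUnit A) (hσ : Induced P σ A) {v : Fin 2 → P} (hv : v ≠ 0)
    (hfix : σ (Projectivization.mk P v hv) = Projectivization.mk P v hv) :
    ∃ a : P, A *ᵥ v = a • v := by
  have hw : A *ᵥ v ≠ 0 := by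
    intro h
    apply hv
    apply Matrix.mulVec_injective_iff_isUnit.2 hA
    rw [h, Matrix.mulVec_zero]
  rw [hσ v hv _ hw rfl, Projectivization.mk_eq_mk_iff'] at hfix
  obtain ⟨a, ha⟩ := hfix
  exact ⟨a, ha.symm⟩

lemma commute_of_fix {P : Type} [Field P] {σ τ : Equiv.Perm (Projectivization P (Fin 2 → P))}
    {A B : Matrix (Fin 2) (Fin 2) P} (hA : IsUnit A) (hB : IsUnit B) (hσ : Induced P σ A)
    (hτ : Induced P τ B) (p q : Projectivization P (Fin 2 → P)) (hpq : p ≠ q)
    (h1 : σ p = p) (h2 : σ q = q) (h3 : τ p = p) (h4 : τ q = q) (x) : σ (τ x) = τ (σ x) := by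
  induction p using Projectivization.ind with
  | h u hu =>
  induction q using Projectivization.ind with
  | h v hv =>
  induction x using Projectivization.ind with
  | h w hw =>
    obtain ⟨a, ha⟩ := eigen hA hσ hu h1
    obtain ⟨b, hb⟩ := eigen hA hσ hv h2
    obtain ⟨c, hc⟩ := eigen hB hτ hu h3
    obtain ⟨d, hd⟩ := eigen hB hτ hv h4
    have hD : u 0 * v 1 - v 0 * u 1 ≠ 0 := by
      intro h
      apply hpq
      rw [Projectivization.mk_eq_mk_iff']
      by_cases hv0 : v 0 = 0
      · have hv1 : v 1 ≠ 0 := by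
          intro h1; apply hv; ext i; fin_cases i <;> simp [hv0, h1]
        have hu0 : u 0 = 0 := by
          rw [hv0, zero_mul, sub_zero] at h
          exact (mul_eq_zero.1 h).resolve_right hv1
        refine ⟨u 1 / v 1, ?_⟩
        ext i; fin_cases i
        · simp [hv0, hu0]
        · simp [hv1]
      · refine ⟨u 0 / v 0, ?_⟩
        ext i; fin_cases i
        · simp [hv0]
        · simp only [Fin.mk_one, Pi.smul_apply, smul_eq_mul]
          field_simp
          linear_combination h
    -- `w` is a combination of `u` and `v`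
    obtain ⟨α, β, hw'⟩ : ∃ α β : P, w = α • u + β • v := by
      refine ⟨(w 0 * v 1 - v 0 * w 1) / (u 0 * v 1 - v 0 * u 1),
        (u 0 * w 1 - w 0 * u 1) / (u 0 * v 1 - v 0 * u 1), ?_⟩
      ext i; fin_cases i
      · simp only [Fin.zero_eta, Pi.add_apply, Pi.smul_apply, smul_eq_mul]
        rw [div_mul_eq_mul_div, div_mul_eq_mul_div, ← add_div, eq_div_iff hD]; ring
      · simp only [Fin.mk_one, Pi.add_apply, Pi.smul_apply, smul_eq_mul]
        rw [div_mul_eq_mul_div, div_mul_eq_mul_div, ← add_div, eq_div_iff hD]; ring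
    have hnz : ∀ {C : Matrix (Fin 2) (Fin 2) P} (_ : IsUnit C) {z : Fin 2 → P}, z ≠ 0 →
        C *ᵥ z ≠ 0 := by
      intro C hC z hz h
      apply hz
      apply Matrix.mulVec_injective_iff_isUnit.2 hC
      rw [h, Matrix.mulVec_zero]
    rw [hτ w hw _ (hnz hB hw) rfl, hσ _ (hnz hB hw) _ (hnz hA (hnz hB hw)) rfl,
      hσ w hw _ (hnz hA hw) rfl, hτ _ (hnz hA hw) _ (hnz hB (hnz hA hw)) rfl]
    congr 1
    rw [hw']
    simp only [Matrix.mulVec_add, Matrix.mulVec_smul, ha, hb, hc, hd, smul_smul]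
    congr 2 <;> ring

/-- no twisted group with a noncommutative two-point stabilizer is `PGL_2(P)` -/
lemma not_pgl {K : Type} [Field K] (T : Twist K) (f h : Equiv.Perm (X K)) (hf : f ∈ GG T)
    (hh : h ∈ GG T) (f1 : f p1 = p1) (f2 : f p2 = p2) (h1 : h p1 = p1) (h2 : h p2 = p2)
    (hne : f (h p3) ≠ h (f p3)) :
    ¬ ∃ (P : Type) (_ : Field P), CharP P 2 ∧
        ∃ e : X K ≃ Projectivization P (Fin 2 → P),
          ∀ σ : Equiv.Perm (Projectivization P (Fin 2 → P)),
            ((∃ g : GG T, ∀ x : X K, σ (e x) = e (g • x)) ↔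
              ∃ A : Matrix.GeneralLinearGroup (Fin 2) P,
                ∀ (v : Fin 2 → P) (hv : v ≠ 0) (w : Fin 2 → P) (hw : w ≠ 0),
                  w = Matrix.mulVec (A : Matrix (Fin 2) (Fin 2) P) v →
                    σ (Projectivization.mk P v hv) = Projectivization.mk P w hw) := by
  rintro ⟨P, _, -, e, he⟩
  have key : ∀ g ∈ GG T, ∃ A : Matrix (Fin 2) (Fin 2) P, IsUnit A ∧
      Induced P ((e.symm.trans g).trans e) A := by
    intro g hg
    obtain ⟨A, hA⟩ := (he ((e.symm.trans g).trans e)).1 ⟨⟨g, hg⟩, fun x => by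
      simp [Subgroup.smul_def]⟩
    exact ⟨A, A.isUnit, hA⟩
  obtain ⟨A, hA, hA'⟩ := key f hf
  obtain ⟨B, hB, hB'⟩ := key h hh
  have := commute_of_fix hA hB hA' hB' (e p1) (e p2) (fun h => p12 (e.injective h))
    (by simp [f1]) (by simp [f2]) (by simp [h1]) (by simp [h2]) (e p3)
  apply hne
  simpa using this

/-! ### The field `F_2(t)` -/

/-- the field `F_2(t)` -/
abbrev F := RatFunc (ZMod 2)

/-- the automorphism `t ↦ t + 1` -/
noncomputable def shift : F ≃+* F :=
  IsFractionRing.ringEquivOfRingEquiv (Polynomial.taylorEquiv (1 : ZMod 2)).toRingEquiv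

lemma shift_poly (p : Polynomial (ZMod 2)) :
    shift (algebraMap _ F p) = algebraMap _ F (Polynomial.taylor 1 p) := by
  unfold shift
  rw [IsFractionRing.ringEquivOfRingEquiv_algebraMap]
  rfl

lemma shift_shift (x : F) : shift (shift x) = x := by
  induction x using RatFunc.induction_on with
  | f p q hq =>
    rw [map_div₀, map_div₀, shift_poly, shift_poly, shift_poly, shift_poly,
      Polynomial.taylor_taylor, Polynomial.taylor_taylor]
    have : (1 + 1 : ZMod 2) = 0 := by decide
    rw [this, Polynomial.taylor_zero, Polynomial.taylor_zero]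

lemma intDegree_shift (x : F) : (shift x).intDegree = x.intDegree := by
  induction x using RatFunc.induction_on with
  | f p q hq =>
    rw [map_div₀, shift_poly, shift_poly]
    by_cases hp : p = 0
    · subst hp; simp
    have hp' : algebraMap (Polynomial (ZMod 2)) F p ≠ 0 := by
      simpa using hp
    have hq' : algebraMap (Polynomial (ZMod 2)) F q ≠ 0 := by
      simpa using hq
    have hp2 : Polynomial.taylor (1 : ZMod 2) p ≠ 0 := by
      intro h; apply hp
      exact (Polynomial.taylor_injective (1 : ZMod 2)) (by rw [h, map_zero])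
    have hq2 : Polynomial.taylor (1 : ZMod 2) q ≠ 0 := by
      intro h; apply hq
      exact (Polynomial.taylor_injective (1 : ZMod 2)) (by rw [h, map_zero])
    have hp3 : algebraMap (Polynomial (ZMod 2)) F (Polynomial.taylor 1 p) ≠ 0 := by
      simpa using hp2
    have hq3 : algebraMap (Polynomial (ZMod 2)) F (Polynomial.taylor 1 q) ≠ 0 := by
      simpa using hq2
    rw [RatFunc.intDegree_div hp3 hq3, RatFunc.intDegree_div hp' hq',
      RatFunc.intDegree_polynomial, RatFunc.intDegree_polynomial, RatFunc.intDegree_polynomial,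
      RatFunc.intDegree_polynomial, Polynomial.natDegree_taylor, Polynomial.natDegree_taylor]

/-- the twist of `F_2(t)` -/
noncomputable def TF : Twist F where
  s := shift
  s2 := shift_shift
  deg := RatFunc.intDegree
  deg_mul := fun _ _ hx hy => RatFunc.intDegree_mul hx hy
  deg_s := intDegree_shift

lemma shift_X : shift (RatFunc.X : F) = RatFunc.X + 1 := by
  rw [← RatFunc.algebraMap_X, shift_poly, Polynomial.taylor_X]
  simp

instance : CharP F 2 := by
  exact charP_of_injective_algebraMap (algebraMap (ZMod 2) F).injective 2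

/-- a diagonal matrix -/
noncomputable def dg (a : F) : Matrix (Fin 2) (Fin 2) F := !![a, 0; 0, 1]

lemma det_dg (a : F) : (dg a).det = a := by
  rw [dg, Matrix.det_fin_two_of]; ring

lemma X_ne : (RatFunc.X : F) ≠ 0 := RatFunc.X_ne_zero

lemma act_dg (a : F) (n : ℤ) (hn : RatFunc.intDegree a = n) (v : V F) :
    act TF (dg a) v = ![a * TF.tau n (v 0), TF.tau n (v 1)] := by
  have : TF.deg (dg a).det = n := by rw [det_dg]; exact hn
  unfold act
  rw [this]
  ext i; fin_cases i <;> simp [dg, Matrix.mulVec, dotProduct]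

end Pool.Agent.R673.KT
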